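import Pool.Agent.Helper41.LD5.Defs

/-!
# Project LD5: the resonances are covered by few short intervals
-/

set_option autoImplicit false

namespace Pool.Agent.Helper34.LD5

open Set MeasureTheory Filter Topology
open Pool.Agent.Helper41.LD4
open Pool.Agent.Helper41.LD5

/-! ## One function -/

private theorem log_sub_le34 {a b : ℝ} (hb : 1 ≤ b) (hab : b ≤ a) : Real.log a - Real.log b ≤ a - b := by
  have hb0 : 0 < b := by linarith
  have ha0 : 0 < a := by linarith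
  rw [← Real.log_div ha0.ne' hb0.ne']
  have h1 : Real.log (a / b) ≤ a / b - 1 := Real.log_le_sub_one_of_pos (by positivity)
  have h2 : a / b - 1 = (a - b) / b := by field_simp
  have h3 : (a - b) / b ≤ a - b := div_le_self (by linarith) hb
  linarith

/-- `log` is 1-Lipschitz on `[1, ∞)` -/
private theorem abs_log_sub_le34 {a b : ℝ} (ha : 1 ≤ a) (hb : 1 ≤ b) : |Real.log a - Real.log b| ≤ |a - b| := by
  rcases le_total b a with h | h
  · rw [abs_of_nonneg (sub_nonneg.2 h), abs_of_nonneg (sub_nonneg.2 (Real.log_le_log (by linarith) h))]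
    exact log_sub_le34 hb h
  · rw [abs_sub_comm, abs_sub_comm a b, abs_of_nonneg (sub_nonneg.2 h), abs_of_nonneg (sub_nonneg.2 (Real.log_le_log (by linarith) h))]
    exact log_sub_le34 ha h

private theorem le_log_sub34 {x y X : ℝ} (hx : 0 < x) (hxy : x ≤ y) (hy : y ≤ X) : (y - x) / X ≤ Real.log y - Real.log x := by
  have hy0 : 0 < y := by linarith
  have hX0 : 0 < X := by linarith
  rw [← Real.log_div hy0.ne' hx.ne']
  have h1 : 1 - (y / x)⁻¹ ≤ Real.log (y / x) := Real.one_sub_inv_le_log_of_pos (by positivity)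
  have h2 : 1 - (y / x)⁻¹ = (y - x) / y := by
    rw [inv_div]
    field_simp
  have h3 : (y - x) / X ≤ (y - x) / y := div_le_div_of_nonneg_left (by linarith) hy0 hy
  linarith

private theorem abs_le_log_sub34 {x y X : ℝ} (hx : 0 < x) (hy : 0 < y) (hxX : x ≤ X) (hyX : y ≤ X) :
    |y - x| / X ≤ |Real.log y - Real.log x| := by
  rcases le_total x y with h | h
  · rw [abs_of_nonneg (sub_nonneg.2 h), abs_of_nonneg (sub_nonneg.2 (Real.log_le_log hx h))]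
    exact le_log_sub34 hx h hyX
  · rw [abs_sub_comm, abs_sub_comm (Real.log y), abs_of_nonneg (sub_nonneg.2 h), abs_of_nonneg (sub_nonneg.2 (Real.log_le_log hy h))]
    exact le_log_sub34 hy h hxX

/-- two points where `c x ^ E ≥ 1` -/
private theorem rpow_sep34 {c E x y X : ℝ} (hc : 0 < c) (hx : 0 < x) (hy : 0 < y) (hxX : x ≤ X) (hyX : y ≤ X) (h1 : 1 ≤ c * x ^ E)
    (h2 : 1 ≤ c * y ^ E) : |E| * (|y - x| / X) ≤ |c * y ^ E - c * x ^ E| := by
  have h3 := abs_log_sub_le34 h2 h1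
  have hxE : (0 : ℝ) < x ^ E := Real.rpow_pos_of_pos hx E
  have hyE : (0 : ℝ) < y ^ E := Real.rpow_pos_of_pos hy E
  have h4 : Real.log (c * y ^ E) - Real.log (c * x ^ E) = E * (Real.log y - Real.log x) := by
    rw [Real.log_mul hc.ne' hyE.ne', Real.log_mul hc.ne' hxE.ne', Real.log_rpow hx, Real.log_rpow hy]
    ring
  rw [h4, abs_mul] at h3
  exact (mul_le_mul_of_nonneg_left (abs_le_log_sub34 hx hy hxX hyX) (abs_nonneg E)).trans h3

theorem bad_cover {x₁ x₂ : ℝ} (h1 : 1 ≤ x₁) (h12 : x₁ ≤ x₂) {K D : ℕ} (hK : 10 ≤ K) (hD : 100 ≤ D) (L : Finset (ℝ × ℝ)) (hL : L.card ≤ 2 ^ (8 * K))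
    (hpos : ∀ z ∈ L, 0 < z.1) (hE : ∀ z ∈ L, x₂ ≤ 2 ^ K * |z.2|) :
    ∃ F : Finset ℝ, F.card ≤ 2 ^ (60 * K) ∧ ∀ x ∈ Icc x₁ x₂, (∀ y ∈ F, x ∉ Icc (y - (1 / 2) ^ ((D - 2) * K)) (y + (1 / 2) ^ ((D - 2) * K))) →
      ∀ z ∈ L, 1 ≤ z.1 * x ^ z.2 → z.1 * x ^ z.2 ≤ 2 ^ (12 * K + 2) → NRa D K (z.1 * x ^ z.2) := by
  classical
  -- the bad set of one triple
  set P : (ℝ × ℝ) × ℕ × ℤ → ℝ → Prop := fun t x => x ∈ Icc x₁ x₂ ∧ 1 ≤ t.1.1 * x ^ t.1.2 ∧
    |(t.2.1 : ℝ) * (t.1.1 * x ^ t.1.2) - t.2.2| < (1 / 2 : ℝ) ^ (D * K) with hP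
  set T : Finset ((ℝ × ℝ) × ℕ × ℤ) := L ×ˢ (Finset.Icc 1 (2 ^ (12 * K + 4)) ×ˢ Finset.Icc (-(2 ^ (24 * K + 7) : ℤ)) (2 ^ (24 * K + 7))) with hT
  refine ⟨T.image (fun t => if h : ∃ x, P t x then h.choose else 0), ?_, ?_⟩
  · -- the count
    refine Finset.card_image_le.trans ?_
    rw [hT, Finset.card_product, Finset.card_product, Nat.card_Icc, Int.card_Icc]
    have e1 : ((2 : ℤ) ^ (24 * K + 7) + 1 - -(2 ^ (24 * K + 7))).toNat = 2 ^ (24 * K + 8) + 1 := by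
      have : ((2 : ℤ) ^ (24 * K + 7) + 1 - -(2 ^ (24 * K + 7))) = ((2 ^ (24 * K + 8) + 1 : ℕ) : ℤ) := by
        push_cast
        ring
      rw [this]
      rfl
    rw [e1, Nat.add_sub_cancel]
    have e2 : 2 ^ (24 * K + 8) + 1 ≤ 2 ^ (24 * K + 9) := by
      have : 1 ≤ 2 ^ (24 * K + 8) := Nat.one_le_pow _ _ (by norm_num)
      have e3 : 2 ^ (24 * K + 9) = 2 * 2 ^ (24 * K + 8) := by ring
      omega
    calc L.card * (2 ^ (12 * K + 4) * (2 ^ (24 * K + 8) + 1)) ≤ 2 ^ (8 * K) * (2 ^ (12 * K + 4) * 2 ^ (24 * K + 9)) :=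
          Nat.mul_le_mul hL (Nat.mul_le_mul_left _ e2)
      _ = 2 ^ (44 * K + 13) := by ring
      _ ≤ 2 ^ (60 * K) := Nat.pow_le_pow_right (by norm_num) (by omega)
  · -- the separation
    intro x hx hx2 z hz ha1 ha2 q hq1 hq2 p
    by_contra hcon
    rw [not_le] at hcon
    have hD1 : (1 / 2 : ℝ) ^ (D * K) ≤ 1 := pow_le_one₀ (by norm_num) (by norm_num)
    have hq1' : (1 : ℝ) ≤ q := by exact_mod_cast hq1
    have hq2' : (q : ℝ) ≤ 2 ^ (12 * K + 4) := by exact_mod_cast hq2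
    have hqa0 : 0 ≤ (q : ℝ) * (z.1 * x ^ z.2) := by positivity
    have hqa : (q : ℝ) * (z.1 * x ^ z.2) ≤ 2 ^ (24 * K + 6) := by
      calc (q : ℝ) * (z.1 * x ^ z.2) ≤ 2 ^ (12 * K + 4) * 2 ^ (12 * K + 2) := mul_le_mul hq2' ha2 (by linarith) (by positivity)
        _ = 2 ^ (24 * K + 6) := by ring
    have hpow : (1 : ℝ) ≤ 2 ^ (24 * K + 6) := one_le_pow₀ (by norm_num)
    have hpow2 : (2 : ℝ) ^ (24 * K + 7) = 2 * 2 ^ (24 * K + 6) := by ring
    have hp := abs_lt.1 hcon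
    have hpl : (-(2 ^ (24 * K + 7) : ℤ)) ≤ p := by
      have : (-(2 ^ (24 * K + 7) : ℝ)) ≤ p := by linarith
      exact_mod_cast this
    have hpu : p ≤ (2 ^ (24 * K + 7) : ℤ) := by
      have : (p : ℝ) ≤ (2 ^ (24 * K + 7) : ℝ) := by linarith
      exact_mod_cast this
    have hmem : ((z, q, p) : (ℝ × ℝ) × ℕ × ℤ) ∈ T := by
      rw [hT]
      simp only [Finset.mem_product, Finset.mem_Icc]
      exact ⟨hz, ⟨hq1, hq2⟩, hpl, hpu⟩
    have hPx : ∃ x, P (z, q, p) x := ⟨x, hx, ha1, hcon⟩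
    have hy := hPx.choose_spec
    set y := hPx.choose with hyd
    have hyF : y ∈ T.image (fun t => if h : ∃ x, P t x then h.choose else 0) := by
      refine Finset.mem_image.2 ⟨(z, q, p), hmem, ?_⟩
      simp only [hPx, dite_true]
      rfl
    apply hx2 y hyF
    obtain ⟨hy1, hy2, hy3⟩ := hy
    simp only at hy2 hy3
    have hx0 : 0 < x := by linarith [hx.1]
    have hy0 : 0 < y := by linarith [hy1.1]
    have hX0 : 0 < x₂ := by linarith
    have hs := rpow_sep34 (hpos z hz) hy0 hx0 hy1.2 hx.2 hy2 ha1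
    -- upper bound
    have hu : |z.1 * x ^ z.2 - z.1 * y ^ z.2| ≤ 2 * (1 / 2 : ℝ) ^ (D * K) := by
      have h5 : |(q : ℝ) * (z.1 * x ^ z.2 - z.1 * y ^ z.2)| ≤ 2 * (1 / 2 : ℝ) ^ (D * K) := by
        have : (q : ℝ) * (z.1 * x ^ z.2 - z.1 * y ^ z.2) = ((q : ℝ) * (z.1 * x ^ z.2) - p) - ((q : ℝ) * (z.1 * y ^ z.2) - p) := by ring
        rw [this]
        refine (abs_sub _ _).trans ?_
        linarith
      rw [abs_mul, Nat.abs_cast] at h5
      refine le_trans ?_ h5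
      exact le_mul_of_one_le_left (abs_nonneg _) hq1'
    have hE' := hE z hz
    -- `|x - y| ≤ 2 ^ K * (2 * 2 ^ (- D K))`
    have h6 : |x - y| ≤ 2 ^ K * (2 * (1 / 2 : ℝ) ^ (D * K)) := by
      have h7 : |z.2| * (|x - y| / x₂) ≤ 2 * (1 / 2 : ℝ) ^ (D * K) := hs.trans hu
      have h8 : |x - y| ≤ 2 ^ K * (|z.2| * (|x - y| / x₂)) := by
        have h9 : |x - y| = x₂ * (|x - y| / x₂) := by field_simp
        calc |x - y| = x₂ * (|x - y| / x₂) := h9
          _ ≤ (2 ^ K * |z.2|) * (|x - y| / x₂) := mul_le_mul_of_nonneg_right hE' (by positivity)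
          _ = 2 ^ K * (|z.2| * (|x - y| / x₂)) := by ring
      exact h8.trans (mul_le_mul_of_nonneg_left h7 (by positivity))
    have h10 : (2 : ℝ) ^ K * (2 * (1 / 2 : ℝ) ^ (D * K)) ≤ (1 / 2) ^ ((D - 2) * K) := by
      have e4 : D * K = (D - 2) * K + 2 * K := by
        rw [← Nat.add_mul]
        congr 1
        omega
      rw [e4, pow_add]
      have e5 : (2 : ℝ) ^ K * (2 * ((1 / 2) ^ ((D - 2) * K) * (1 / 2) ^ (2 * K))) = (1 / 2 : ℝ) ^ ((D - 2) * K) * (2 * ((2 : ℝ) ^ K * (1 / 2) ^ (2 * K))) := by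
        ring
      rw [e5]
      have e6 : (2 : ℝ) ^ K * (1 / 2) ^ (2 * K) = (1 / 2) ^ K := by
        rw [two_mul, pow_add, ← mul_assoc, ← mul_pow]
        norm_num
      rw [e6]
      have e7 : (1 / 2 : ℝ) ^ K ≤ (1 / 2) ^ 1 := pow_le_pow_of_le_one (by norm_num) (by norm_num) (by omega)
      have e8 : (0 : ℝ) < (1 / 2) ^ ((D - 2) * K) := by positivity
      nlinarith
    have h11 := abs_le.1 (h6.trans h10)
    exact ⟨by linarith, by linarith⟩

/-! ## A family -/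

private theorem fp_div34 {A₀ : ℝ} (hA : 0 < A₀) {P m m' : ℕ} (hP : 1 ≤ P) (hm : 1 ≤ m) {x : ℝ} (hx : 0 < x) :
    fp A₀ P m' x / fp A₀ P m x = ((m' : ℝ) / m) * x ^ (((m' : ℝ) - m) / P) := by
  have hP0 : (0 : ℝ) < P := by exact_mod_cast hP
  have hm0 : (0 : ℝ) < m := by exact_mod_cast hm
  have h1 : x ^ (((m' : ℝ) - m) / P) = x ^ ((m' : ℝ) / P - 1) / x ^ ((m : ℝ) / P - 1) := by
    rw [← Real.rpow_sub hx]
    congr 1
    ring
  have h2 : (0 : ℝ) < x ^ ((m : ℝ) / P - 1) := Real.rpow_pos_of_pos hx _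
  rw [h1]
  unfold fp
  field_simp

private theorem fp_pos34 {A₀ : ℝ} (hA : 0 < A₀) {P m : ℕ} (hP : 1 ≤ P) (hm : 1 ≤ m) {x : ℝ} (hx : 0 < x) : 0 < fp A₀ P m x := by
  have hP0 : (0 : ℝ) < P := by exact_mod_cast hP
  have hm0 : (0 : ℝ) < m := by exact_mod_cast hm
  have h2 : (0 : ℝ) < x ^ ((m : ℝ) / P - 1) := Real.rpow_pos_of_pos hx _
  unfold fp
  positivity

theorem nr_cover (F : Fam) (hF : F.Ok) {D K : ℕ} (hD : 100 ≤ D) (hK : 100 * F.Cx ^ 3 ≤ K) :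
    ∃ E : Finset ℝ, E.card ≤ 2 ^ (60 * K) ∧ ∀ x ∈ Icc F.x₁ F.x₂,
      (∀ y ∈ E, x ∉ Icc (y - (1 / 2) ^ ((D - 2) * K)) (y + (1 / 2) ^ ((D - 2) * K))) → NR F.A₀ F.P F.τ5 F.g D K x := by
  classical
  have hCx := hF.hCx
  have hC3 : F.Cx ≤ F.Cx ^ 3 := Nat.le_self_pow (by norm_num) _
  have hCK : 100 * F.Cx ≤ K := by omega
  have hK100 : 100 ≤ K := by omega
  have hg : F.g ≤ K := by
    have := hF.hgC
    omega
  have hP0 : (0 : ℝ) < F.P := by exact_mod_cast hF.hP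
  have hA := hF.hA
  have hτ : ∀ h < F.g, 0 < F.τ5 h := fun h hh => lt_trans one_pos (hF.H.base.hτ h (by omega))
  have hx2K : F.x₂ ≤ 2 ^ K := hF.hx2.trans (pow_le_pow_right₀ (by norm_num) (by omega))
  have hx2P : F.x₂ * F.P ≤ 2 ^ K := by
    have h1 : (F.P : ℝ) ≤ 2 ^ F.Cx := by
      have h2 : F.P ≤ 2 ^ F.Cx := hF.hPC.trans (Nat.lt_two_pow_self).le
      exact_mod_cast h2
    calc F.x₂ * F.P ≤ 2 ^ F.Cx * 2 ^ F.Cx := mul_le_mul hF.hx2 h1 hP0.le (by positivity)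
      _ = 2 ^ (F.Cx + F.Cx) := (pow_add _ _ _).symm
      _ ≤ 2 ^ K := pow_le_pow_right₀ (by norm_num) (by omega)
  set N : ℕ := 2 ^ (3 * K) + 1 with hN
  set L₁ : Finset (ℝ × ℝ) := (((Finset.range N) ×ˢ (Finset.range N)).filter (fun t => 1 ≤ t.1 ∧ t.1 < t.2)).image
    (fun t => (((t.2 : ℝ) / t.1), (((t.2 : ℝ) - t.1) / F.P))) with hL₁
  set S : Finset (ℕ × ℕ × ℕ) := ((Finset.range N) ×ˢ ((Finset.range F.g) ×ˢ (Finset.range N))).filter (fun t => 2 * F.P ≤ t.1) with hS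
  set L₂ : Finset (ℝ × ℝ) := S.image (fun t => (F.A₀ * ((t.1 : ℝ) / F.P) / F.τ5 t.2.1 ^ t.2.2, (t.1 : ℝ) / F.P - 1)) with hL₂
  set L₃ : Finset (ℝ × ℝ) := S.image (fun t => (F.τ5 t.2.1 ^ t.2.2 / (F.A₀ * ((t.1 : ℝ) / F.P)), 1 - (t.1 : ℝ) / F.P)) with hL₃
  have hcardS : S.card ≤ N * (F.g * N) := by
    refine (Finset.card_filter_le _ _).trans ?_
    rw [Finset.card_product, Finset.card_product, Finset.card_range, Finset.card_range]
  have hcard₁ : L₁.card ≤ N * N := by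
    refine Finset.card_image_le.trans ((Finset.card_filter_le _ _).trans ?_)
    rw [Finset.card_product, Finset.card_range]
  have hcard₂ : L₂.card ≤ N * (F.g * N) := Finset.card_image_le.trans hcardS
  have hcard₃ : L₃.card ≤ N * (F.g * N) := Finset.card_image_le.trans hcardS
  have hL : (L₁ ∪ L₂ ∪ L₃).card ≤ 2 ^ (8 * K) := by
    have h1 : (L₁ ∪ L₂ ∪ L₃).card ≤ N * N + N * (F.g * N) + N * (F.g * N) :=
      (Finset.card_union_le _ _).trans (Nat.add_le_add ((Finset.card_union_le _ _).trans (Nat.add_le_add hcard₁ hcard₂)) hcard₃)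
    have hN2 : N ≤ 2 ^ (3 * K + 1) := by
      have : 1 ≤ 2 ^ (3 * K) := Nat.one_le_pow _ _ (by norm_num)
      have e3 : 2 ^ (3 * K + 1) = 2 * 2 ^ (3 * K) := by ring
      omega
    have hg2 : 1 + 2 * F.g ≤ 2 ^ (K + 1) := by
      have h2 : K < 2 ^ K := Nat.lt_two_pow_self
      have e3 : 2 ^ (K + 1) = 2 * 2 ^ K := by ring
      omega
    calc (L₁ ∪ L₂ ∪ L₃).card ≤ N * N + N * (F.g * N) + N * (F.g * N) := h1
      _ = (1 + 2 * F.g) * (N * N) := by ring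
      _ ≤ 2 ^ (K + 1) * (2 ^ (3 * K + 1) * 2 ^ (3 * K + 1)) := Nat.mul_le_mul hg2 (Nat.mul_le_mul hN2 hN2)
      _ = 2 ^ (7 * K + 3) := by ring
      _ ≤ 2 ^ (8 * K) := Nat.pow_le_pow_right (by norm_num) (by omega)
  have hSmem : ∀ t ∈ S, 2 * F.P ≤ t.1 ∧ t.2.1 < F.g := by
    intro t ht
    rw [hS, Finset.mem_filter, Finset.mem_product, Finset.mem_product, Finset.mem_range, Finset.mem_range] at ht
    exact ⟨ht.2, ht.1.2.1⟩
  have hm2 : ∀ m : ℕ, 2 * F.P ≤ m → 2 ≤ (m : ℝ) / F.P := by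
    intro m hm
    rw [le_div_iff₀ hP0]
    exact_mod_cast hm
  have hpos : ∀ z ∈ L₁ ∪ L₂ ∪ L₃, 0 < z.1 := by
    intro z hz
    rw [Finset.mem_union, Finset.mem_union] at hz
    rcases hz with (hz | hz) | hz
    · rw [hL₁, Finset.mem_image] at hz
      obtain ⟨t, ht, rfl⟩ := hz
      rw [Finset.mem_filter] at ht
      have h1 : (0 : ℝ) < t.1 := by
        have := ht.2.1
        exact_mod_cast this
      have h2 : (0 : ℝ) < t.2 := by
        have := ht.2.2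
        have h3 : 0 < t.2 := by omega
        exact_mod_cast h3
      exact div_pos h2 h1
    · rw [hL₂, Finset.mem_image] at hz
      obtain ⟨t, ht, rfl⟩ := hz
      obtain ⟨h1, h2⟩ := hSmem t ht
      have h3 := hm2 _ h1
      exact div_pos (mul_pos hA (by linarith)) (pow_pos (hτ _ h2) _)
    · rw [hL₃, Finset.mem_image] at hz
      obtain ⟨t, ht, rfl⟩ := hz
      obtain ⟨h1, h2⟩ := hSmem t ht
      have h3 := hm2 _ h1
      exact div_pos (pow_pos (hτ _ h2) _) (mul_pos hA (by linarith))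
  have hE : ∀ z ∈ L₁ ∪ L₂ ∪ L₃, F.x₂ ≤ 2 ^ K * |z.2| := by
    intro z hz
    rw [Finset.mem_union, Finset.mem_union] at hz
    rcases hz with (hz | hz) | hz
    · rw [hL₁, Finset.mem_image] at hz
      obtain ⟨t, ht, rfl⟩ := hz
      rw [Finset.mem_filter] at ht
      have h1 : (1 : ℝ) ≤ (t.2 : ℝ) - t.1 := by
        have h3 : t.1 + 1 ≤ t.2 := ht.2.2
        have h4 : ((t.1 + 1 : ℕ) : ℝ) ≤ t.2 := by exact_mod_cast h3
        push_cast at h4
        linarith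
      have h2 : 1 / (F.P : ℝ) ≤ |((t.2 : ℝ) - t.1) / F.P| := by
        refine le_trans ?_ (le_abs_self _)
        exact div_le_div_of_nonneg_right h1 hP0.le
      have h3 : F.x₂ ≤ 2 ^ K * (1 / (F.P : ℝ)) := by
        rw [mul_one_div, le_div_iff₀ hP0]
        exact hx2P
      exact h3.trans (mul_le_mul_of_nonneg_left h2 (by positivity))
    · rw [hL₂, Finset.mem_image] at hz
      obtain ⟨t, ht, rfl⟩ := hz
      obtain ⟨h1, h2⟩ := hSmem t ht
      have h3 := hm2 _ h1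
      have h4 : 1 ≤ |(t.1 : ℝ) / F.P - 1| := le_trans (by linarith) (le_abs_self _)
      calc F.x₂ ≤ 2 ^ K * 1 := by rw [mul_one]; exact hx2K
        _ ≤ _ := mul_le_mul_of_nonneg_left h4 (by positivity)
    · rw [hL₃, Finset.mem_image] at hz
      obtain ⟨t, ht, rfl⟩ := hz
      obtain ⟨h1, h2⟩ := hSmem t ht
      have h3 := hm2 _ h1
      have h4 : 1 ≤ |1 - (t.1 : ℝ) / F.P| := by
        rw [abs_sub_comm]
        exact le_trans (by linarith) (le_abs_self _)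
      calc F.x₂ ≤ 2 ^ K * 1 := by rw [mul_one]; exact hx2K
        _ ≤ _ := mul_le_mul_of_nonneg_left h4 (by positivity)
  obtain ⟨E, hE1, hE2⟩ := bad_cover hF.h1.le hF.h12 (show 10 ≤ K by omega) hD (L₁ ∪ L₂ ∪ L₃) hL hpos hE
  refine ⟨E, hE1, fun x hx hxE => ?_⟩
  have hx0 : 0 < x := by linarith [hx.1, hF.h1]
  have hx1 : 1 ≤ x := by linarith [hx.1, hF.h1]
  have key := hE2 x hx hxE
  refine ⟨?_, ?_⟩
  · intro m m' hm hmm hm' hle
    have hm0 : (0 : ℝ) < m := by exact_mod_cast hm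
    rw [fp_div34 hA hF.hP hm hx0] at hle ⊢
    have hmem : (((m' : ℝ) / m), (((m' : ℝ) - m) / F.P)) ∈ L₁ ∪ L₂ ∪ L₃ := by
      rw [Finset.mem_union, Finset.mem_union]
      left
      left
      rw [hL₁, Finset.mem_image]
      refine ⟨(m, m'), ?_, rfl⟩
      rw [Finset.mem_filter, Finset.mem_product, Finset.mem_range, Finset.mem_range]
      exact ⟨⟨by simp only; omega, by simp only; omega⟩, hm, hmm⟩
    refine key _ hmem ?_ hle
    have hmm' : (m : ℝ) ≤ m' := by exact_mod_cast hmm.le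
    have h1 : 1 ≤ (m' : ℝ) / m := by
      rw [le_div_iff₀ hm0]
      linarith
    have h2 : 1 ≤ x ^ (((m' : ℝ) - m) / F.P) := Real.one_le_rpow hx1 (div_nonneg (by linarith) hP0.le)
    simp only
    nlinarith
  · intro m hm hm' h hh u hu
    have h3 := hm2 m hm
    have hmS : ((m, h, u) : ℕ × ℕ × ℕ) ∈ S := by
      rw [hS, Finset.mem_filter, Finset.mem_product, Finset.mem_product, Finset.mem_range, Finset.mem_range, Finset.mem_range]
      exact ⟨⟨by simp only; omega, hh, by simp only; omega⟩, hm⟩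
    have hτu : 0 < F.τ5 h ^ u := pow_pos (hτ h hh) u
    refine ⟨fun hl hr => ?_, fun hl hr => ?_⟩
    · have e : fp F.A₀ F.P m x / F.τ5 h ^ u = F.A₀ * ((m : ℝ) / F.P) / F.τ5 h ^ u * x ^ ((m : ℝ) / F.P - 1) := by
        unfold fp
        ring
      rw [e] at hl hr ⊢
      refine key (F.A₀ * ((m : ℝ) / F.P) / F.τ5 h ^ u, (m : ℝ) / F.P - 1) ?_ hl hr
      rw [Finset.mem_union, Finset.mem_union]
      left
      right
      rw [hL₂, Finset.mem_image]
      exact ⟨_, hmS, rfl⟩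
    · have e : F.τ5 h ^ u / fp F.A₀ F.P m x = F.τ5 h ^ u / (F.A₀ * ((m : ℝ) / F.P)) * x ^ (1 - (m : ℝ) / F.P) := by
        have e1 : x ^ (1 - (m : ℝ) / F.P) = (x ^ ((m : ℝ) / F.P - 1))⁻¹ := by
          rw [← Real.rpow_neg hx0.le]
          congr 1
          ring
        rw [e1]
        unfold fp
        rw [div_mul_eq_mul_div, ← div_eq_mul_inv, div_div, mul_comm (x ^ _)]
      rw [e] at hl hr ⊢
      refine key (F.τ5 h ^ u / (F.A₀ * ((m : ℝ) / F.P)), 1 - (m : ℝ) / F.P) ?_ hl hr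
      rw [Finset.mem_union, Finset.mem_union]
      right
      rw [hL₃, Finset.mem_image]
      exact ⟨_, hmS, rfl⟩

end Pool.Agent.Helper34.LD5
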